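import Mathlib

set_option autoImplicit false

/-!
# A quotient of Gamma values by Euler's limit
-/

namespace Pool.Agent.W2helper52.GP5

open Filter Topology

/-- the product of Euler's limit -/
noncomputable def PP (s : ℝ) (n : ℕ) : ℝ := ∏ k ∈ Finset.range n, (1 + s / ((k : ℝ) + 1))

theorem PP_pos (s : ℝ) (hs : 0 < s) (n : ℕ) : 0 < PP s n := by
  unfold PP
  apply Finset.prod_pos
  intro k _
  positivity

theorem seq_eq (s : ℝ) (hs : 0 < s) (n : ℕ) :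
    s * Real.GammaSeq s n = (n : ℝ) ^ s / PP s n := by
  have h1 : (∏ k ∈ Finset.range n, (s + ((k : ℝ) + 1))) = (n.factorial : ℝ) * PP s n := by
    unfold PP
    rw [← Finset.prod_range_add_one_eq_factorial]
    push_cast
    rw [← Finset.prod_mul_distrib]
    apply Finset.prod_congr rfl
    intro k _
    have : ((k : ℝ) + 1) ≠ 0 := by positivity
    field_simp
    ring
  unfold Real.GammaSeq
  rw [Finset.prod_range_succ']
  push_cast
  rw [h1]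
  have hP := (PP_pos s hs n).ne'
  have hf : (n.factorial : ℝ) ≠ 0 := by positivity
  have hs' := hs.ne'
  field_simp
  ring

theorem lim (s : ℝ) (hs : 0 < s) :
    Tendsto (fun n : ℕ => (n : ℝ) ^ s / PP s n) atTop (𝓝 (Real.Gamma (1 + s))) := by
  have h := (Real.GammaSeq_tendsto_Gamma s).const_mul s
  rw [add_comm 1 s, Real.Gamma_add_one hs.ne']
  refine h.congr fun n => seq_eq s hs n

theorem step_one (p : ℝ) (hp : 0 < p) (hp1 : p ≤ 1) :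
    (1 + p / 2 / ((0 : ℕ) + 1 : ℝ)) ^ 3 * (1 + 3 * p / 2 / ((0 : ℕ) + 1 : ℝ)) ≤
      (1 + 56 / 1000 * p ^ 2) * (1 + p / ((0 : ℕ) + 1 : ℝ)) ^ 3 := by
  have h : 0 ≤ p ^ 2 * (56 / 1000 * (1 + p) ^ 3 - p / 4 * (1 + 3 * p / 4)) := by
    apply mul_nonneg (sq_nonneg p)
    nlinarith [sq_nonneg (p - 17 / 20), mul_nonneg hp.le (sq_nonneg (p - 17 / 20))]
  push_cast
  nlinarith [h]

theorem step_gen (p : ℝ) (hp : 0 < p) (hp1 : p ≤ 1) (k : ℝ) (hk : 2 ≤ k) :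
    (1 + p / 2 / k) ^ 3 * (1 + 3 * p / 2 / k) ≤
      (1 + (11 / 32) / (k * (k + 1) * (k + 2)) * p ^ 2) * (1 + p / k) ^ 3 := by
  have hk0 : 0 < k := by linarith
  have key : 8 * p * (k + 3 * p / 4) * (k + 1) * (k + 2) ≤ 11 * (k + p) ^ 3 := by
    obtain ⟨m, hm⟩ : ∃ m, m = k - 2 := ⟨_, rfl⟩
    obtain ⟨r, hr⟩ : ∃ r, r = 1 - p := ⟨_, rfl⟩
    have hm0 : 0 ≤ m := by linarith
    have hr0 : 0 ≤ r := by linarith
    have hr1 : r ≤ 1 := by linarith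
    have e1 : k = m + 2 := by linarith
    have e2 : p = 1 - r := by linarith
    rw [e1, e2]
    nlinarith [mul_nonneg hm0 hr0, mul_nonneg hm0 hm0, mul_nonneg hr0 hr0,
      mul_nonneg (mul_nonneg hm0 hm0) hm0, mul_nonneg (mul_nonneg hm0 hm0) hr0,
      mul_nonneg (mul_nonneg hm0 hr0) hr0, mul_nonneg (mul_nonneg hr0 hr0) hr0,
      mul_nonneg (mul_nonneg hm0 hr0) (sub_nonneg.2 hr1),
      mul_nonneg hr0 (sub_nonneg.2 hr1), mul_nonneg (mul_nonneg hr0 hr0) (sub_nonneg.2 hr1),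
      mul_nonneg (mul_nonneg (mul_nonneg hm0 hm0) hr0) (sub_nonneg.2 hr1),
      mul_nonneg (mul_nonneg (mul_nonneg hm0 hm0) hm0) hr0,
      mul_nonneg (mul_nonneg (mul_nonneg hm0 hm0) hm0) (sub_nonneg.2 hr1)]
  have e : (1 + (11 / 32) / (k * (k + 1) * (k + 2)) * p ^ 2) * (1 + p / k) ^ 3 -
      (1 + p / 2 / k) ^ 3 * (1 + 3 * p / 2 / k) =
      p ^ 2 / (32 * k ^ 4 * (k + 1) * (k + 2)) *
        (11 * (k + p) ^ 3 - 8 * p * (k + 3 * p / 4) * (k + 1) * (k + 2)) := by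
    field_simp
    ring
  have h2 : 0 ≤ p ^ 2 / (32 * k ^ 4 * (k + 1) * (k + 2)) := by positivity
  have h3 := mul_nonneg h2 (sub_nonneg.2 key)
  rw [← e] at h3
  linarith

theorem main_prod (p : ℝ) (hp : 0 < p) (hp1 : p ≤ 1) (n : ℕ) :
    PP (p / 2) (n + 1) ^ 3 * PP (3 * p / 2) (n + 1) ≤
      Real.exp ((56 / 1000 + 11 / 32 * (1 / 2) * (1 / 6 - 1 / (((n : ℝ) + 2) * ((n : ℝ) + 3)))) *
        p ^ 2) * PP p (n + 1) ^ 3 := by
  induction n with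
  | zero =>
    have h := step_one p hp hp1
    simp only [PP, Finset.prod_range_succ, Finset.prod_range_zero, one_mul]
    refine h.trans ?_
    apply mul_le_mul_of_nonneg_right _ (by positivity)
    have h2 := Real.add_one_le_exp (56 / 1000 * p ^ 2)
    have e : (56 / 1000 + 11 / 32 * (1 / 2) * (1 / 6 - 1 / ((((0 : ℕ) : ℝ) + 2) * (((0 : ℕ) : ℝ) + 3)))) *
        p ^ 2 = 56 / 1000 * p ^ 2 := by
      push_cast
      ring
    rw [e]
    linarith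
  | succ n ih =>
    have h := step_gen p hp hp1 ((n : ℝ) + 1 + 1) (by
      have : (0 : ℝ) ≤ n := Nat.cast_nonneg n
      linarith)
    have r1 : ∀ s : ℝ, PP s (n + 1 + 1) = PP s (n + 1) * (1 + s / ((n : ℝ) + 1 + 1)) := by
      intro s
      unfold PP
      rw [Finset.prod_range_succ]
      push_cast
      rfl
    rw [r1, r1, r1]
    have q1 := PP_pos (p / 2) (by positivity) (n + 1)
    have q2 := PP_pos (3 * p / 2) (by positivity) (n + 1)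
    have q3 := PP_pos p hp (n + 1)
    have h2 := Real.add_one_le_exp
      ((11 / 32) / (((n : ℝ) + 1 + 1) * ((n : ℝ) + 1 + 1 + 1) * ((n : ℝ) + 1 + 1 + 2)) * p ^ 2)
    have h3 : (1 + p / 2 / ((n : ℝ) + 1 + 1)) ^ 3 * (1 + 3 * p / 2 / ((n : ℝ) + 1 + 1)) ≤
        Real.exp ((11 / 32) / (((n : ℝ) + 1 + 1) * ((n : ℝ) + 1 + 1 + 1) *
          ((n : ℝ) + 1 + 1 + 2)) * p ^ 2) * (1 + p / ((n : ℝ) + 1 + 1)) ^ 3 := by
      refine h.trans ?_
      apply mul_le_mul_of_nonneg_right _ (by positivity)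
      linarith
    have e : (56 / 1000 + 11 / 32 * (1 / 2) *
        (1 / 6 - 1 / ((((n + 1 : ℕ) : ℝ) + 2) * (((n + 1 : ℕ) : ℝ) + 3)))) * p ^ 2 =
        (56 / 1000 + 11 / 32 * (1 / 2) * (1 / 6 - 1 / (((n : ℝ) + 2) * ((n : ℝ) + 3)))) * p ^ 2 +
        (11 / 32) / (((n : ℝ) + 1 + 1) * ((n : ℝ) + 1 + 1 + 1) * ((n : ℝ) + 1 + 1 + 2)) * p ^ 2 := by
      push_cast
      have a1 : ((n : ℝ) + 2) ≠ 0 := by positivity
      have a2 : ((n : ℝ) + 3) ≠ 0 := by positivity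
      have a3 : ((n : ℝ) + 4) ≠ 0 := by positivity
      have b1 : ((n : ℝ) + 1 + 1) = (n : ℝ) + 2 := by ring
      have b2 : ((n : ℝ) + 1 + 2) = (n : ℝ) + 3 := by ring
      have b3 : ((n : ℝ) + 1 + 3) = (n : ℝ) + 4 := by ring
      have b4 : ((n : ℝ) + 2 + 1) = (n : ℝ) + 3 := by ring
      have b5 : ((n : ℝ) + 2 + 2) = (n : ℝ) + 4 := by ring
      rw [b1, b2, b3, b4, b5]
      field_simp
      ring
    rw [e, Real.exp_add]
    have h4 := mul_le_mul ih h3 (by positivity) (by positivity)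
    calc _ = PP (p / 2) (n + 1) ^ 3 * PP (3 * p / 2) (n + 1) *
        ((1 + p / 2 / ((n : ℝ) + 1 + 1)) ^ 3 * (1 + 3 * p / 2 / ((n : ℝ) + 1 + 1))) := by ring
      _ ≤ _ := h4
      _ = _ := by ring

theorem main_prod' (p : ℝ) (hp : 0 < p) (hp1 : p ≤ 1) (n : ℕ) :
    PP (p / 2) (n + 1) ^ 3 * PP (3 * p / 2) (n + 1) ≤
      (1 + 91 / 1000 * p ^ 2) * PP p (n + 1) ^ 3 := by
  refine (main_prod p hp hp1 n).trans ?_
  have q3 := PP_pos p hp (n + 1)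
  apply mul_le_mul_of_nonneg_right _ (by positivity)
  have h1 : (56 / 1000 + 11 / 32 * (1 / 2) * (1 / 6 - 1 / (((n : ℝ) + 2) * ((n : ℝ) + 3)))) *
      p ^ 2 ≤ 85 / 1000 * p ^ 2 := by
    apply mul_le_mul_of_nonneg_right _ (by positivity)
    have : 0 ≤ 1 / (((n : ℝ) + 2) * ((n : ℝ) + 3)) := by positivity
    linarith
  refine (Real.exp_le_exp.2 h1).trans ?_
  have hp2 : p ^ 2 ≤ 1 := by nlinarith
  have h2 := Real.exp_bound' (x := 85 / 1000 * p ^ 2) (by positivity) (by nlinarith)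
    (n := 2) (by norm_num)
  refine h2.trans ?_
  simp only [Finset.sum_range_succ, Finset.sum_range_zero, Nat.factorial]
  push_cast
  have hp0 : 0 ≤ p ^ 2 := by positivity
  nlinarith [mul_nonneg hp0 (sub_nonneg.2 hp2)]

/-- the statement of `Pool.Agent.W2helper31.GP.P_GAM3` -/
theorem gam3 : ∀ p : ℝ, 0 < p → p ≤ 1 →
    Real.Gamma (1 + p) ^ 3 ≤
      (1 + 91 / 1000 * p ^ 2) * (Real.Gamma (1 + p / 2) ^ 3 * Real.Gamma (1 + 3 * p / 2)) := by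
  intro p hp hp1
  have l1 := (lim p hp).pow 3
  have l2 := (((lim (p / 2) (by positivity)).pow 3).mul
    (lim (3 * p / 2) (by positivity))).const_mul (1 + 91 / 1000 * p ^ 2)
  refine le_of_tendsto_of_tendsto l1 l2 ?_
  filter_upwards [eventually_ge_atTop 1] with n hn
  obtain ⟨m, rfl⟩ : ∃ m, n = m + 1 := ⟨n - 1, by omega⟩
  have q1 := PP_pos (p / 2) (by positivity) (m + 1)
  have q2 := PP_pos (3 * p / 2) (by positivity) (m + 1)
  have q3 := PP_pos p hp (m + 1)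
  have hx : (0 : ℝ) < ((m + 1 : ℕ) : ℝ) := by positivity
  have e1 : (((m + 1 : ℕ) : ℝ) ^ p) ^ 3 = ((m + 1 : ℕ) : ℝ) ^ (3 * p) := by
    rw [← Real.rpow_natCast, ← Real.rpow_mul hx.le]
    congr 1
    push_cast
    ring
  have e2 : (((m + 1 : ℕ) : ℝ) ^ (p / 2)) ^ 3 * ((m + 1 : ℕ) : ℝ) ^ (3 * p / 2) =
      ((m + 1 : ℕ) : ℝ) ^ (3 * p) := by
    rw [← Real.rpow_natCast, ← Real.rpow_mul hx.le, ← Real.rpow_add hx]
    congr 1
    push_cast
    ring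
  have h := main_prod' p hp hp1 m
  have hX : 0 < ((m + 1 : ℕ) : ℝ) ^ (3 * p) := Real.rpow_pos_of_pos hx _
  have e3 : (((m + 1 : ℕ) : ℝ) ^ (p / 2) / PP (p / 2) (m + 1)) ^ 3 *
      (((m + 1 : ℕ) : ℝ) ^ (3 * p / 2) / PP (3 * p / 2) (m + 1)) =
      ((m + 1 : ℕ) : ℝ) ^ (3 * p) / (PP (p / 2) (m + 1) ^ 3 * PP (3 * p / 2) (m + 1)) := by
    rw [div_pow, div_mul_div_comm, e2]
  show (((m + 1 : ℕ) : ℝ) ^ p / PP p (m + 1)) ^ 3 ≤ (1 + 91 / 1000 * p ^ 2) *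
    ((((m + 1 : ℕ) : ℝ) ^ (p / 2) / PP (p / 2) (m + 1)) ^ 3 *
      (((m + 1 : ℕ) : ℝ) ^ (3 * p / 2) / PP (3 * p / 2) (m + 1)))
  rw [e3, div_pow, e1, mul_div_assoc', div_le_div_iff₀ (by positivity) (by positivity)]
  calc ((m + 1 : ℕ) : ℝ) ^ (3 * p) * (PP (p / 2) (m + 1) ^ 3 * PP (3 * p / 2) (m + 1))
      ≤ ((m + 1 : ℕ) : ℝ) ^ (3 * p) * ((1 + 91 / 1000 * p ^ 2) * PP p (m + 1) ^ 3) :=
        mul_le_mul_of_nonneg_left h hX.le
    _ = _ := by ring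

end Pool.Agent.W2helper52.GP5
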