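import Pool.Agent.W2helper31.GP.Stm5
import Pool.Agent.W2helper52.GP5.Gam3Core

set_option autoImplicit false

/-!
# Piece GAM3 of project GP5
-/

namespace Pool.Agent.W2helper52.GP5

theorem p_gam3 : Pool.Agent.W2helper31.GP.P_GAM3 := fun p hp hp1 => gam3 p hp hp1

end Pool.Agent.W2helper52.GP5
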